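import Pool.Agent.Q6.Dih.Final

/-!
# Base size sets and determining sets of the dihedral groups

Let `w` be the number of primes dividing `n`. Then `𝓑(D_n) = {1, …, w + 1}`, and `𝓓(D_n)` is
`{1, …, w + 1}` or `{1, …, w}` according to whether `n` satisfies the following condition or not:
`n` is a prime, or twice a prime, or every odd prime dividing `n` divides it at least twice.
In particular `𝓓(D_n) = 𝓑(D_n)` exactly for these `n`.

Outline. The determining set of a group is the set of base sizes of its faithful 2-closed actions
(`Q6.Dih.detSet_eq_closedSet`: several copies of a 2-closed action are joined to a rigid graph).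
If the base size is `w + 1` and an odd prime `p` divides `n` exactly once, then on the points
moved by the rotations of order `p` some reflection preserves all orbits of the rotations of order
`p`; this reflection on these points, and the identity elsewhere, preserves all 2-orbits
(`Q6.Dih.not_mem_closedSet`). For the other `n` the vertices and edges of `q`-gons, `q` running
through the prime powers in `n`, coupled by regular orbits of `D_{q/p}`, give base size `w + 1`
(`Q6.Dih.succ_mem_closedSet`).
-/

namespace Pool.Agent.Results.MP_4c7f2d_al.DihedralSets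

open Q6.Dih

/-- `DihedralGroup n` is the dihedral group `D_n` of order `2 n`, `baseSizeSet G` is the base size
set `𝓑(G)`, and `detSet G` is the determining set `𝓓(G)`. -/
theorem result (n : ℕ) (hn : 2 ≤ n) :
    baseSizeSet (DihedralGroup n) = Set.Icc 1 (n.primeFactors.card + 1) ∧
    ((n.Prime ∨ (∃ p, p.Prime ∧ n = 2 * p) ∨ ∀ p, p.Prime → p ≠ 2 → p ∣ n → p ^ 2 ∣ n) →
      detSet (DihedralGroup n) = Set.Icc 1 (n.primeFactors.card + 1)) ∧
    (¬ (n.Prime ∨ (∃ p, p.Prime ∧ n = 2 * p) ∨ ∀ p, p.Prime → p ≠ 2 → p ∣ n → p ^ 2 ∣ n) →
      detSet (DihedralGroup n) = Set.Icc 1 n.primeFactors.card) ∧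
    (detSet (DihedralGroup n) = baseSizeSet (DihedralGroup n) ↔
      (n.Prime ∨ (∃ p, p.Prime ∧ n = 2 * p) ∨
        ∀ p, p.Prime → p ≠ 2 → p ∣ n → p ^ 2 ∣ n)) :=
  ⟨baseSizeSet_eq hn, detSet_eq_of_good hn, detSet_eq_of_not_good hn,
    detSet_eq_baseSizeSet_iff hn⟩

end Pool.Agent.Results.MP_4c7f2d_al.DihedralSets
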